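import Pool.Agent.LE.StmtsQD
import Pool.Agent.Helper54_BED.LA

/-!
# Squad LQD, row RAL: algebra of the resolvent on the torus
-/

set_option autoImplicit false

open MeasureTheory ProbabilityTheory Function Filter

open scoped ENNReal BigOperators Topology NNReal ComplexOrder Matrix

noncomputable section

namespace Pool.Agent.LE.QD.H76

open Pool.Agent.Anderson hiding box mem_box card_box
open Pool.Agent.Loc Pool.Agent.Mob Pool.Agent.Helper54.Bal
  Pool.Agent.Helper96.EXP Pool.Agent.BED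
open Pool.Agent.LE.MN Pool.Agent.LE.CL Pool.Agent.LE.IR

section gen

variable {X : Type} [Fintype X] [DecidableEq X]

omit [DecidableEq X] in
theorem n2_nn (w : X → ℂ) : 0 ≤ n2 w := Finset.sum_nonneg fun _ _ => by positivity

omit [DecidableEq X] in
theorem im_zero {H : Matrix X X ℂ} (hH : ∀ x y, (starRingEnd ℂ) (H x y) = H y x) (w : X → ℂ) :
    (∑ x, (starRingEnd ℂ) (w x) * (H *ᵥ w) x).im = 0 := by
  rw [← Complex.conj_eq_iff_im]
  have e : ∀ x, (starRingEnd ℂ) (w x) * (H *ᵥ w) x =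
      ∑ y, (starRingEnd ℂ) (w x) * (H x y * w y) := by
    intro x
    rw [Matrix.mulVec, dotProduct, Finset.mul_sum]
  simp only [e, map_sum, map_mul, Complex.conj_conj, hH]
  rw [Finset.sum_comm]
  refine Finset.sum_congr rfl fun x _ => Finset.sum_congr rfl fun y _ => ?_
  ring

theorem low_bd {H : Matrix X X ℂ} (hH : ∀ x y, (starRingEnd ℂ) (H x y) = H y x) (z : ℂ)
    (w : X → ℂ) : z.im ^ 2 * n2 w ≤ n2 ((H - Matrix.diagonal fun _ => z) *ᵥ w) := by
  obtain ⟨u, hu⟩ : ∃ u, u = (H - Matrix.diagonal fun _ => z) *ᵥ w := ⟨_, rfl⟩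
  rw [← hu]
  have h1 : ∑ x, (starRingEnd ℂ) (w x) * u x =
      (∑ x, (starRingEnd ℂ) (w x) * (H *ᵥ w) x) - z * (n2 w : ℂ) := by
    unfold n2
    rw [Complex.ofReal_sum, Finset.mul_sum, ← Finset.sum_sub_distrib]
    refine Finset.sum_congr rfl fun x _ => ?_
    rw [hu, Matrix.sub_mulVec, Pi.sub_apply, Matrix.mulVec_diagonal, Complex.ofReal_pow,
      ← Complex.conj_mul']
    ring
  have h2 : (∑ x, (starRingEnd ℂ) (w x) * u x).im = -(z.im * n2 w) := by
    rw [h1, Complex.sub_im, im_zero hH w, Complex.mul_im, Complex.ofReal_re, Complex.ofReal_im]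
    ring
  have h3 : |z.im * n2 w| ≤ ∑ x, ‖w x‖ * ‖u x‖ := by
    rw [← abs_neg, ← h2]
    refine (Complex.abs_im_le_norm _).trans ((norm_sum_le _ _).trans (le_of_eq ?_))
    refine Finset.sum_congr rfl fun x _ => ?_
    rw [norm_mul, RCLike.norm_conj]
  have h4 : (z.im * n2 w) ^ 2 ≤ n2 w * n2 u := by
    have h5 := Finset.sum_mul_sq_le_sq_mul_sq Finset.univ (fun x => ‖w x‖) (fun x => ‖u x‖)
    rw [← sq_abs]
    exact (pow_le_pow_left₀ (abs_nonneg _) h3 2).trans h5
  rcases (n2_nn w).eq_or_lt with h0 | h0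
  · rw [← h0, mul_zero]
    exact n2_nn u
  · have h6 : n2 w * (z.im ^ 2 * n2 w) ≤ n2 w * n2 u := by
      calc n2 w * (z.im ^ 2 * n2 w) = (z.im * n2 w) ^ 2 := by ring
        _ ≤ _ := h4
    exact le_of_mul_le_mul_left h6 h0

theorem unit_of {H : Matrix X X ℂ} (hH : ∀ x y, (starRingEnd ℂ) (H x y) = H y x) {z : ℂ}
    (hz : z.im ≠ 0) : IsUnit (H - Matrix.diagonal fun _ => z) := by
  rw [← Matrix.mulVec_injective_iff_isUnit]
  intro w w' h
  have h1 : (H - Matrix.diagonal fun _ => z) *ᵥ (w - w') = 0 := by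
    rw [Matrix.mulVec_sub]
    exact sub_eq_zero.2 h
  have h2 := low_bd hH z (w - w')
  rw [h1] at h2
  have h3 : n2 (0 : X → ℂ) = 0 := by simp [n2]
  rw [h3] at h2
  have h4 : n2 (w - w') ≤ 0 := by
    by_contra h5
    have := mul_pos (pow_pos (abs_pos.2 hz) 2) (not_le.1 h5)
    rw [sq_abs] at this
    linarith
  have h5 : n2 (w - w') = 0 := le_antisymm h4 (n2_nn _)
  unfold n2 at h5
  rw [Finset.sum_eq_zero_iff_of_nonneg fun _ _ => by positivity] at h5
  funext x
  have h6 := h5 x (Finset.mem_univ x)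
  rw [sq_eq_zero_iff, norm_eq_zero, Pi.sub_apply, sub_eq_zero] at h6
  exact h6

/-- the bound of the inverse -/
theorem inv_bd {H : Matrix X X ℂ} (hH : ∀ x y, (starRingEnd ℂ) (H x y) = H y x) {z : ℂ}
    (hz : z.im ≠ 0) (w : X → ℂ) :
    n2 ((H - Matrix.diagonal fun _ => z)⁻¹ *ᵥ w) ≤ n2 w / z.im ^ 2 := by
  have h1 := low_bd hH z ((H - Matrix.diagonal fun _ => z)⁻¹ *ᵥ w)
  rw [Matrix.mulVec_mulVec, Matrix.mul_nonsing_inv _
    ((Matrix.isUnit_iff_isUnit_det _).1 (unit_of hH hz)), Matrix.one_mulVec] at h1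
  rw [le_div_iff₀ (by positivity), mul_comm]
  exact h1

end gen

section tor

variable {d M : ℕ} [NeZero M]

/-- the Hamiltonian -/
def Hm (V : Tor d M → ℝ) : Matrix (Tor d M) (Tor d M) ℂ :=
  (adj d M).map (fun a : ℝ => (a : ℂ)) + Matrix.diagonal fun x => (V x : ℂ)

theorem hz_eq (V : Tor d M → ℝ) (z : ℂ) : hz V z = Hm V - Matrix.diagonal fun _ => z := by
  unfold hz Hm
  rw [add_sub_assoc, Matrix.diagonal_sub]

theorem hm_conj (V : Tor d M → ℝ) (x y : Tor d M) :
    (starRingEnd ℂ) (Hm V x y) = Hm V y x := by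
  unfold Hm
  rw [Matrix.add_apply, Matrix.add_apply, Matrix.map_apply, Matrix.map_apply, map_add,
    Complex.conj_ofReal, adj_symm x y]
  congr 1
  by_cases h : x = y
  · rw [h, Matrix.diagonal_apply_eq, Complex.conj_ofReal]
  · rw [Matrix.diagonal_apply_ne _ h, Matrix.diagonal_apply_ne _ (Ne.symm h), map_zero]

theorem hm_symm (V : Tor d M → ℝ) (x y : Tor d M) : Hm V x y = Hm V y x := by
  unfold Hm
  rw [Matrix.add_apply, Matrix.add_apply, Matrix.map_apply, Matrix.map_apply, adj_symm x y]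
  congr 1
  by_cases h : x = y
  · rw [h]
  · rw [Matrix.diagonal_apply_ne _ h, Matrix.diagonal_apply_ne _ (Ne.symm h)]

theorem hz_unit (V : Tor d M → ℝ) {z : ℂ} (hz0 : z.im ≠ 0) : IsUnit (hz V z).det := by
  rw [hz_eq]
  exact (Matrix.isUnit_iff_isUnit_det _).1 (unit_of (hm_conj V) hz0)

theorem mul_rs (V : Tor d M → ℝ) {z : ℂ} (hz0 : z.im ≠ 0) : hz V z * rs V z = 1 :=
  Matrix.mul_nonsing_inv _ (hz_unit V hz0)

theorem rs_mul (V : Tor d M → ℝ) {z : ℂ} (hz0 : z.im ≠ 0) : rs V z * hz V z = 1 :=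
  Matrix.nonsing_inv_mul _ (hz_unit V hz0)

theorem hz_transpose (V : Tor d M → ℝ) (z : ℂ) : (hz V z)ᵀ = hz V z := by
  rw [hz_eq, Matrix.transpose_sub, Matrix.diagonal_transpose]
  congr 1
  ext x y
  exact hm_symm V y x

theorem rs_symm (V : Tor d M → ℝ) (z : ℂ) (x y : Tor d M) : rs V z x y = rs V z y x := by
  have h : (rs V z)ᵀ = rs V z := by
    unfold rs
    rw [Matrix.transpose_nonsing_inv, hz_transpose]
  exact congrFun (congrFun h.symm x) y

theorem hz_conj (V : Tor d M → ℝ) (z : ℂ) : hz V ((starRingEnd ℂ) z) = (hz V z)ᴴ := by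
  rw [hz_eq, hz_eq, Matrix.conjTranspose_sub]
  congr 1
  · ext x y
    exact (hm_conj V y x).symm
  · rw [Matrix.diagonal_conjTranspose]
    rfl

theorem rs_conj (V : Tor d M → ℝ) (z : ℂ) : rs V ((starRingEnd ℂ) z) = (rs V z)ᴴ := by
  unfold rs
  rw [hz_conj, Matrix.conjTranspose_nonsing_inv]

theorem rs_bd (V : Tor d M → ℝ) {z : ℂ} (hz0 : z.im ≠ 0) (w : Tor d M → ℂ) :
    n2 (rs V z *ᵥ w) ≤ n2 w / z.im ^ 2 := by
  unfold rs
  rw [hz_eq]
  exact inv_bd (hm_conj V) hz0 w

theorem res_id (V V' : Tor d M → ℝ) {z z' : ℂ} (h : z.im ≠ 0) (h' : z'.im ≠ 0) :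
    rs V z - rs V' z' = rs V z * (hz V' z' - hz V z) * rs V' z' := by
  rw [mul_sub, sub_mul, rs_mul V h, one_mul, mul_assoc, mul_rs V' h', mul_one]

/-- (6) -/
theorem res_pot (V V' : Tor d M → ℝ) {z : ℂ} (h : z.im ≠ 0) : rs V z - rs V' z =
    -(rs V z * (Matrix.diagonal fun x => ((V x - V' x : ℝ) : ℂ)) * rs V' z) := by
  rw [res_id V V' h h]
  have e : hz V' z - hz V z = -(Matrix.diagonal fun x => ((V x - V' x : ℝ) : ℂ)) := by
    rw [hz_eq, hz_eq, sub_sub_sub_cancel_right]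
    unfold Hm
    rw [add_sub_add_left_eq_sub, Matrix.diagonal_sub, Matrix.diagonal_neg]
    congr 1
    funext x
    push_cast
    ring
  rw [e, mul_neg, neg_mul]

theorem res_en (V : Tor d M → ℝ) {z z' : ℂ} (h : z.im ≠ 0) (h' : z'.im ≠ 0) :
    rs V z - rs V z' = (z - z') • (rs V z * rs V z') := by
  rw [res_id V V h h']
  have e : hz V z' - hz V z = (z - z') • (1 : Matrix (Tor d M) (Tor d M) ℂ) := by
    rw [hz_eq, hz_eq, sub_sub_sub_cancel_left, Matrix.diagonal_sub, Matrix.smul_one_eq_diagonal]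
  rw [e, mul_smul_comm, mul_one, smul_mul_assoc]

/-- (5) -/
theorem row (V : Tor d M → ℝ) {z : ℂ} (h : 0 < z.im) (x : Tor d M) :
    ∑ y, ‖rs V z x y‖ ^ 2 = (rs V z x x).im / z.im := by
  have hc : ((starRingEnd ℂ) z).im ≠ 0 := by
    rw [Complex.conj_im]
    exact neg_ne_zero.2 h.ne'
  have h1 := congrFun (congrFun (res_en V h.ne' hc) x) x
  rw [rs_conj, Matrix.sub_apply, Matrix.smul_apply, Matrix.mul_apply,
    Matrix.conjTranspose_apply] at h1
  have h2 : ∑ y, rs V z x y * (rs V z)ᴴ y x = ((∑ y, ‖rs V z x y‖ ^ 2 : ℝ) : ℂ) := by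
    rw [Complex.ofReal_sum]
    refine Finset.sum_congr rfl fun y _ => ?_
    rw [Matrix.conjTranspose_apply, Complex.ofReal_pow, ← Complex.mul_conj']
    rfl
  rw [h2] at h1
  have h3 := congrArg Complex.im h1
  rw [eq_div_iff h.ne']
  simp only [Complex.sub_im, RCLike.star_def, Complex.conj_im, smul_eq_mul, Complex.mul_im,
    Complex.sub_re, Complex.conj_re, Complex.ofReal_re, Complex.ofReal_im] at h3
  linarith

/-- (7) -/
theorem transl (V : Tor d M → ℝ) (z : ℂ) (a x y : Tor d M) :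
    rs (tr a V) z x y = rs V z (a + x) (a + y) := by
  have h : hz (tr a V) z = (hz V z).submatrix (Equiv.addLeft a) (Equiv.addLeft a) := by
    ext x y
    rw [Matrix.submatrix_apply, hz_eq, hz_eq, Matrix.sub_apply, Matrix.sub_apply]
    unfold Hm
    rw [Matrix.add_apply, Matrix.add_apply, Matrix.map_apply, Matrix.map_apply]
    have e1 : adj d M x y = adj d M (Equiv.addLeft a x) (Equiv.addLeft a y) := by
      unfold adj
      rw [Matrix.of_apply, Matrix.of_apply]
      refine Finset.sum_congr rfl fun i _ => ?_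
      simp only [Equiv.coe_addLeft, add_assoc, add_sub_assoc, add_right_inj]
    rw [e1]
    by_cases hxy : x = y
    · rw [hxy, Matrix.diagonal_apply_eq, Matrix.diagonal_apply_eq, Matrix.diagonal_apply_eq,
        Matrix.diagonal_apply_eq]
      rfl
    · have hxy' : Equiv.addLeft a x ≠ Equiv.addLeft a y := fun h => hxy ((Equiv.addLeft a).injective h)
      rw [Matrix.diagonal_apply_ne _ hxy, Matrix.diagonal_apply_ne _ hxy,
        Matrix.diagonal_apply_ne _ hxy', Matrix.diagonal_apply_ne _ hxy']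
  unfold rs
  rw [h, Matrix.inv_submatrix_equiv]
  rfl

/-- columns -/
theorem mulVec_single' (A : Matrix (Tor d M) (Tor d M) ℂ) (y : Tor d M) :
    A *ᵥ Pi.single y 1 = fun x => A x y := by
  funext x
  rw [Matrix.mulVec_single_one]
  rfl

/-- (12) -/
theorem entry_bd (V : Tor d M → ℝ) {z : ℂ} (h : 0 < z.im) (x y : Tor d M) :
    ‖rs V z x y‖ ≤ 1 / z.im := by
  have h1 := rs_bd V h.ne' (Pi.single y 1)
  rw [mulVec_single'] at h1
  have h2 : n2 (Pi.single y 1 : Tor d M → ℂ) = 1 := by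
    unfold n2
    rw [Finset.sum_eq_single y]
    · rw [Pi.single_eq_same]
      simp
    · intro b _ hb
      rw [Pi.single_eq_of_ne hb]
      simp
    · intro hy
      exact absurd (Finset.mem_univ y) hy
  rw [h2] at h1
  have h3 : ‖rs V z x y‖ ^ 2 ≤ n2 (fun x => rs V z x y) :=
    Finset.single_le_sum (f := fun x => ‖rs V z x y‖ ^ 2) (fun _ _ => by positivity)
      (Finset.mem_univ x)
  have h4 : ‖rs V z x y‖ ^ 2 ≤ (1 / z.im) ^ 2 := by
    rw [div_pow, one_pow]
    exact h3.trans h1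
  exact (sq_le_sq₀ (norm_nonneg _) (by positivity)).1 h4

/-- (10) -/
theorem cont (z : ℂ) (h : z.im ≠ 0) (a b : Tor d M) :
    Continuous fun W : Tor d M → ℝ => rs W z a b := by
  have h1 : Continuous fun W : Tor d M → ℝ => hz W z := by
    unfold hz
    refine continuous_const.add (Continuous.matrix_diagonal ?_)
    refine continuous_pi fun x => ?_
    change Continuous fun W : Tor d M → ℝ => ((W x : ℝ) : ℂ) - z
    exact (Complex.continuous_ofReal.comp (continuous_apply x)).sub continuous_const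
  have h2 : (fun W : Tor d M → ℝ => rs W z a b) =
      fun W => (hz W z).det⁻¹ * (hz W z).adjugate a b := by
    funext W
    unfold rs
    rw [Matrix.inv_def, Ring.inverse_eq_inv', Matrix.smul_apply, smul_eq_mul]
  rw [h2]
  refine (h1.matrix_det.inv₀ fun W => (hz_unit W h).ne_zero).mul ?_
  exact h1.matrix_adjugate.matrix_elem a b

theorem n2_eq {X : Type} [Fintype X] (f : X → ℂ) :
    n2 f = ‖(WithLp.toLp 2 f : EuclideanSpace ℂ X)‖ ^ 2 := by
  rw [EuclideanSpace.norm_sq_eq]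
  rfl

/-- (8) -/
theorem mono (V : Tor d M → ℝ) (E η η₁ : ℝ) (x : Tor d M) (h : 0 < η) (h1 : η ≤ η₁) :
    (rs V ⟨E, η⟩ x x).im ≤ η₁ / η * (rs V ⟨E, η₁⟩ x x).im := by
  have h0 : 0 < η₁ := h.trans_le h1
  obtain ⟨z, hz⟩ : ∃ z : ℂ, z = ⟨E, η⟩ := ⟨_, rfl⟩
  obtain ⟨z₁, hz₁⟩ : ∃ z : ℂ, z = ⟨E, η₁⟩ := ⟨_, rfl⟩
  have hi : z.im = η := by rw [hz]
  have hi₁ : z₁.im = η₁ := by rw [hz₁]
  rw [← hz, ← hz₁]
  have hzi : z.im ≠ 0 := by rw [hi]; exact h.ne'
  have hzi₁ : z₁.im ≠ 0 := by rw [hi₁]; exact h0.ne'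
  obtain ⟨u, hu⟩ : ∃ u, u = rs V z₁ *ᵥ Pi.single x 1 := ⟨_, rfl⟩
  obtain ⟨g, hg⟩ : ∃ g, g = rs V z *ᵥ Pi.single x 1 := ⟨_, rfl⟩
  have e1 : g = u + (z - z₁) • (rs V z *ᵥ u) := by
    have e2 := congrArg (fun A => A *ᵥ (Pi.single x 1 : Tor d M → ℂ)) (res_en V hzi hzi₁)
    simp only [Matrix.sub_mulVec, Matrix.smul_mulVec, ← Matrix.mulVec_mulVec] at e2
    rw [← hu, ← hg] at e2
    rw [← e2]
    abel
  have e3 : ‖z - z₁‖ = η₁ - η := by
    have : z - z₁ = ((-(η₁ - η) : ℝ) : ℂ) * Complex.I := by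
      rw [hz, hz₁]
      apply Complex.ext <;> simp
    rw [this, norm_mul, Complex.norm_I, mul_one, Complex.norm_real, Real.norm_eq_abs, abs_neg,
      abs_of_nonneg (by linarith)]
  have e4 : ‖(WithLp.toLp 2 (rs V z *ᵥ u) : EuclideanSpace ℂ (Tor d M))‖ ≤
      ‖(WithLp.toLp 2 u : EuclideanSpace ℂ (Tor d M))‖ / η := by
    have e5 := rs_bd V hzi u
    rw [n2_eq, n2_eq, hi, ← div_pow] at e5
    exact (sq_le_sq₀ (norm_nonneg _) (by positivity)).1 e5
  have e6 : ‖(WithLp.toLp 2 g : EuclideanSpace ℂ (Tor d M))‖ ≤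
      η₁ / η * ‖(WithLp.toLp 2 u : EuclideanSpace ℂ (Tor d M))‖ := by
    have e7 : (WithLp.toLp 2 g : EuclideanSpace ℂ (Tor d M)) =
        WithLp.toLp 2 u + (z - z₁) • WithLp.toLp 2 (rs V z *ᵥ u) := by
      rw [e1]
      rfl
    rw [e7]
    refine (norm_add_le _ _).trans ?_
    rw [norm_smul, e3]
    have e8 : (η₁ - η) * ‖(WithLp.toLp 2 (rs V z *ᵥ u) : EuclideanSpace ℂ (Tor d M))‖ ≤
        (η₁ - η) * (‖(WithLp.toLp 2 u : EuclideanSpace ℂ (Tor d M))‖ / η) :=
      mul_le_mul_of_nonneg_left e4 (by linarith)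
    refine (add_le_add le_rfl e8).trans (le_of_eq ?_)
    field_simp
    ring
  have e9 : n2 g ≤ (η₁ / η) ^ 2 * n2 u := by
    rw [n2_eq, n2_eq, ← mul_pow]
    exact pow_le_pow_left₀ (norm_nonneg _) e6 2
  have hcol : ∀ (w : ℂ), 0 < w.im → n2 (rs V w *ᵥ Pi.single x 1) = (rs V w x x).im / w.im := by
    intro w hw
    rw [← row V hw x, mulVec_single']
    unfold n2
    refine Finset.sum_congr rfl fun y _ => ?_
    change ‖rs V w y x‖ ^ 2 = ‖rs V w x y‖ ^ 2
    rw [rs_symm V w y x]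
  rw [hg, hu, hcol z (by rw [hi]; exact h), hcol z₁ (by rw [hi₁]; exact h0), hi, hi₁] at e9
  have e10 : (rs V z x x).im = η * ((rs V z x x).im / η) := by field_simp
  rw [e10]
  calc η * ((rs V z x x).im / η) ≤ η * ((η₁ / η) ^ 2 * ((rs V z₁ x x).im / η₁)) :=
        mul_le_mul_of_nonneg_left e9 h.le
    _ = η₁ / η * (rs V z₁ x x).im := by field_simp

/-- (9) -/
theorem der (V : Tor d M → ℝ) {z : ℂ} (h : z.im ≠ 0) (x a b : Tor d M) :
    HasDerivAt (fun t : ℝ => rs (Function.update V x t) z a b)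
      (-(rs V z a x * rs V z x b)) (V x) := by
  have h1 : ∀ t : ℝ, rs (Function.update V x t) z a b - rs V z a b =
      -((t - V x : ℝ) : ℂ) * (rs (Function.update V x t) z a x * rs V z x b) := by
    intro t
    have e := congrFun (congrFun (res_pot (Function.update V x t) V h) a) b
    rw [Matrix.sub_apply, Matrix.neg_apply, Matrix.mul_assoc, Matrix.mul_apply] at e
    rw [e, Finset.sum_eq_single x]
    · rw [Matrix.diagonal_mul, Function.update_self]
      ring
    · intro y _ hy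
      rw [Matrix.diagonal_mul, Function.update_of_ne hy, sub_self]
      simp
    · intro hx
      exact absurd (Finset.mem_univ x) hx
  have hc : Continuous fun t : ℝ => -(rs (Function.update V x t) z a x * rs V z x b) := by
    have h2 : Continuous fun t : ℝ => rs (Function.update V x t) z a x :=
      (cont z h a x).comp (continuous_const.update x continuous_id)
    exact (h2.mul continuous_const).neg
  rw [hasDerivAt_iff_tendsto_slope]
  have h3 := (hc.tendsto (V x)).mono_left (nhdsWithin_le_nhds (s := {V x}ᶜ))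
  rw [Function.update_eq_self] at h3
  refine h3.congr' ?_
  filter_upwards [self_mem_nhdsWithin] with t ht
  have ht0 : ((t - V x : ℝ) : ℂ) ≠ 0 := by
    rw [Complex.ofReal_ne_zero]
    exact sub_ne_zero.2 ht
  rw [slope_def_module, Function.update_eq_self, h1 t, Complex.real_smul, Complex.ofReal_inv]
  field_simp

end tor

section four

variable {d M : ℕ} [NeZero M]

theorem md_ne : ((M : ℂ) ^ d) ≠ 0 := pow_ne_zero _ (Nat.cast_ne_zero.2 (NeZero.ne M))

/-- the exponentials are eigenvectors of the adjacency matrix -/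
theorem eig (ftb : FtbStmt) (p x : Tor d M) :
    ∑ y, ((adj d M x y : ℝ) : ℂ) * ec p y = (es p : ℂ) * ec p x := by
  obtain ⟨-, -, -, -, -, -, h7, h8, h9, -, -, -⟩ := ftb d M
  obtain ⟨f, hf⟩ := h8 fun q => if q = p then (M : ℂ) ^ d else 0
  have e1 : f = fun x => ec p x := by
    funext x
    rw [h7 f x]
    simp only [hf, mul_ite, mul_zero, Finset.sum_ite_eq', Finset.mem_univ, if_true]
    rw [mul_div_assoc, div_self md_ne, mul_one]
  rw [e1] at hf
  obtain ⟨g, hg⟩ : ∃ g : Tor d M → ℂ, g = fun x => ∑ i : Fin d,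
      (2 * ec p x - ec p (x + ev i) - ec p (x - ev i)) := ⟨_, rfl⟩
  have e2 : ∀ q, ft g q = (ds p : ℂ) * ft (fun x => ec p x) q := by
    intro q
    rw [hg]
    refine (h9 (fun x => ec p x) q).trans ?_
    rw [hf q]
    by_cases hq : q = p
    · rw [hq]
    · rw [if_neg hq, mul_zero, mul_zero]
  have e3 : g x = (ds p : ℂ) * ec p x := by
    rw [h7 g x, h7 (fun x => ec p x) x]
    simp only [e2]
    rw [← mul_div_assoc, Finset.mul_sum]
    congr 1
    exact Finset.sum_congr rfl fun q _ => by ring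
  have e4 : ∑ y, ((adj d M x y : ℝ) : ℂ) * ec p y =
      ∑ i : Fin d, (ec p (x + ev i) + ec p (x - ev i)) := by
    unfold adj
    simp only [Matrix.of_apply]
    push_cast
    simp only [Finset.sum_mul]
    rw [Finset.sum_comm]
    refine Finset.sum_congr rfl fun i _ => ?_
    have hite : ∀ (P : Prop) [Decidable P] (c : ℂ),
        ((if P then (1 : ℝ) else 0 : ℝ) : ℂ) * c = if P then c else 0 := by
      intro P _ c
      split_ifs <;> simp
    simp only [add_mul, hite, Finset.sum_add_distrib, Finset.sum_ite_eq', Finset.mem_univ,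
      if_true]
  rw [e4]
  have e5 : g x = 2 * d * ec p x - ∑ i : Fin d, (ec p (x + ev i) + ec p (x - ev i)) := by
    rw [hg]
    have : (2 * d * ec p x : ℂ) = ∑ _i : Fin d, 2 * ec p x := by
      rw [Finset.sum_const, Finset.card_univ, Fintype.card_fin, nsmul_eq_mul]
      ring
    rw [this, ← Finset.sum_sub_distrib]
    exact Finset.sum_congr rfl fun i _ => by ring
  rw [e3] at e5
  have e6 : ((es p : ℝ) : ℂ) = 2 * d - (ds p : ℂ) := by
    unfold es
    push_cast
    ring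
  rw [e6, sub_mul, e5]
  ring

/-- (11) -/
theorem free (ftb : FtbStmt) {z : ℂ} (hz0 : z.im ≠ 0) (x y : Tor d M) :
    rs (0 : Tor d M → ℝ) z x y =
      (∑ p, ec p (x - y) / ((es p : ℂ) - z)) / (M : ℂ) ^ d := by
  obtain ⟨-, h2, -, h4, -, -, h7, -, -, -, -, -⟩ := ftb d M
  obtain ⟨B, hB⟩ : ∃ B : Matrix (Tor d M) (Tor d M) ℂ, B = Matrix.of fun x y =>
      (∑ p, ec p (x - y) / ((es p : ℂ) - z)) / (M : ℂ) ^ d := ⟨_, rfl⟩
  have hBa : ∀ x y, B x y = (∑ p, ec p (x - y) / ((es p : ℂ) - z)) / (M : ℂ) ^ d := by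
    intro x y
    rw [hB, Matrix.of_apply]
  have hne : ∀ p : Tor d M, (es p : ℂ) - z ≠ 0 := by
    intro p h
    have := congrArg Complex.im h
    simp only [Complex.sub_im, Complex.ofReal_im, Complex.zero_im, zero_sub] at this
    exact hz0 (neg_eq_zero.1 this)
  have h1 : hz (0 : Tor d M → ℝ) z * B = 1 := by
    ext x y
    rw [hz_eq, sub_mul, Matrix.sub_apply, Matrix.diagonal_mul]
    have e1 : (Hm (0 : Tor d M → ℝ) * B) x y =
        (∑ p, (es p : ℂ) * (ec p (x - y) / ((es p : ℂ) - z))) / (M : ℂ) ^ d := by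
      have e2 : Hm (0 : Tor d M → ℝ) = (adj d M).map (fun a : ℝ => (a : ℂ)) := by
        unfold Hm
        have : (Matrix.diagonal fun x : Tor d M => (((0 : Tor d M → ℝ) x : ℝ) : ℂ)) = 0 := by
          ext i j
          simp [Matrix.diagonal_apply]
        rw [this, add_zero]
      rw [e2, Matrix.mul_apply]
      simp only [Matrix.map_apply, hBa]
      have e3 : ∀ w, ((adj d M x w : ℝ) : ℂ) *
          ((∑ p, ec p (w - y) / ((es p : ℂ) - z)) / (M : ℂ) ^ d) =
          (∑ p, (((adj d M x w : ℝ) : ℂ) * ec p w) * (ec p (-y) / ((es p : ℂ) - z))) /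
            (M : ℂ) ^ d := by
        intro w
        rw [← mul_div_assoc, Finset.mul_sum]
        congr 1
        refine Finset.sum_congr rfl fun p _ => ?_
        rw [sub_eq_add_neg, h2]
        ring
      simp only [e3]
      rw [← Finset.sum_div, Finset.sum_comm]
      congr 1
      refine Finset.sum_congr rfl fun p _ => ?_
      rw [← Finset.sum_mul, eig ftb p x, sub_eq_add_neg x y, h2]
      ring
    rw [e1, hBa, ← mul_div_assoc, ← sub_div, Finset.mul_sum, ← Finset.sum_sub_distrib]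
    have e4 : ∑ p, ((es p : ℂ) * (ec p (x - y) / ((es p : ℂ) - z)) -
        z * (ec p (x - y) / ((es p : ℂ) - z))) =
        ∑ p, ec p x * (starRingEnd ℂ) (ec p y) := by
      refine Finset.sum_congr rfl fun p _ => ?_
      rw [← sub_mul, mul_div_cancel₀ _ (hne p), sub_eq_add_neg x y, h2, (h4 p y).2]
    rw [e4]
    have e5 := h7 (Pi.single y 1) x
    have e6 : ∀ p, ft (Pi.single y 1 : Tor d M → ℂ) p = (starRingEnd ℂ) (ec p y) := by
      intro p
      unfold ft
      rw [Finset.sum_eq_single y]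
      · rw [Pi.single_eq_same, mul_one]
      · intro b _ hb
        rw [Pi.single_eq_of_ne hb, mul_zero]
      · intro hy
        exact absurd (Finset.mem_univ y) hy
    simp only [e6] at e5
    rw [← e5, Matrix.one_apply, Pi.single_apply]
  have h3 : rs (0 : Tor d M → ℝ) z = B := Matrix.inv_eq_right_inv h1
  rw [h3, hBa]

end four

/-- RAL -/
theorem ral (ftb : FtbStmt) : RalStmt := by
  intro d M _ V z hz0
  refine ⟨⟨mul_rs V hz0.ne', rs_mul V hz0.ne'⟩, rs_symm V z, ?_, ?_, row V hz0, ?_,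
    transl V z, ?_, der V hz0.ne', cont z hz0.ne', free ftb hz0.ne', entry_bd V hz0⟩
  · intro x y
    rw [rs_conj, Matrix.conjTranspose_apply, rs_symm V z y x]
    rfl
  · intro w
    refine ⟨rs_bd V hz0.ne' w, ?_⟩
    rw [← rs_conj]
    have h := rs_bd V (z := (starRingEnd ℂ) z) (by
      rw [Complex.conj_im]
      exact neg_ne_zero.2 hz0.ne') w
    rw [Complex.conj_im, neg_sq] at h
    exact h
  · intro V'
    exact res_pot V V' hz0.ne'
  · intro E η η₁ x h h1
    exact mono V E η η₁ x h h1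

end Pool.Agent.LE.QD.H76
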